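import Pool.Agent.H.MP_8e1844_lc.A

set_option autoImplicit false

namespace Pool.Agent.Results.MP_8e1844_lc.Yes

open Pool.Agent.H.MP_d04dff_lc Pool.Agent.H.MP_fa2eca_lc Pool.Agent.H.MP_c57dc8_lc
open Pool.Agent.H.MP_8e1844_lc

/-- Weak reducibility. -/
def Wk (P Q : Set (ℕ → Bool)) : Prop := ∀ Y ∈ Q, ∃ X ∈ P, TuringReducible (orc X) (orc Y)

/-- Strongly shift complex sequences. -/
def SSC (M : List Bool → ℝ) (δ : ℝ) : Set (ℕ → Bool) :=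
  {X | ∃ c : ℕ, ∀ i n, M (pre (fun j => X (i + j)) n) ≤ 2 ^ (c - δ * n)}

theorem result (U : List Bool →. List Bool) (hU : OptP U) (M : List Bool → ℝ) (hM : Semi M)
    (hu : ∀ N, Semi N → N [] = 1 → ∃ d : ℝ, ∀ σ, N σ ≤ d * M σ) (δ : ℚ) (h0 : 0 < δ) (h1 : δ < 1) :
    Wk (⋃ c, SC U (fun n => δ * n) c) (SSC M δ) ∧ Wk (SSC M δ) (⋃ c, SC U (fun n => δ * n) c) := by
  refine ⟨fun Y ⟨c, hc⟩ => ⟨Y, ?_, .refl _⟩, fun X hX => ?_⟩
  · obtain ⟨ν, h2, h3, h4⟩ := apri hU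
    obtain ⟨d, hd⟩ := hu ν h2 h3
    obtain ⟨k, hk⟩ := pow_unbounded_of_one_lt d (one_lt_two (α := ℝ))
    refine Set.mem_iUnion.2 ⟨c + k, fun i n => ?_⟩
    have h5 := ((h4 _).trans (hd _)).trans ((mul_le_mul_of_nonneg_right hk.le (hM.1 _)).trans
      (mul_le_mul_of_nonneg_left (hc i n) (by positivity)))
    rw [one_div, inv_pow, ← Real.rpow_natCast, ← Real.rpow_neg zero_le_two, ← Real.rpow_natCast,
      ← Real.rpow_add two_pos, Real.rpow_le_rpow_left_iff one_lt_two] at h5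
    push_cast
    linarith
  · obtain ⟨c, hc⟩ := Set.mem_iUnion.1 hX
    exact up hU hM (by exact_mod_cast h0) (by exact_mod_cast h1) hc

end Pool.Agent.Results.MP_8e1844_lc.Yes
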